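import Pool.Agent.MP_5c7750_co.Mg.Main

/-- The plane has a proper colouring with ten dense colour classes. -/
theorem Pool.Agent.Results.MP_5c7750_co.PlaneTen.result :
    ∃ c : EuclideanSpace ℝ (Fin 2) → Fin 10,
      (∀ p q, dist p q = 1 → c p ≠ c q) ∧ ∀ i, Dense (c ⁻¹' {i}) :=
  Pool.Agent.MP_5c7750_co.ten
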