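import Pool.Agent.MP_5c7750_co.Th.All

/-- Unit circles with algebraically independent centres have a proper colouring with three dense
colour classes. -/
theorem Pool.Agent.Results.MP_5c7750_co.ThreeColours.result (X : Set (EuclideanSpace ℝ (Fin 2)))
    (hX : AlgebraicIndependent ℚ fun j : X × Fin 2 => (j.1 : EuclideanSpace ℝ (Fin 2)) j.2) :
    ∃ c : {p : EuclideanSpace ℝ (Fin 2) // ∃ x ∈ X, dist x p = 1} → Fin 3,
      (∀ p q, dist p q = 1 → c p ≠ c q) ∧ ∀ i, Dense (c ⁻¹' {i}) :=
  Pool.Agent.MP_5c7750_co.Th.three X hX
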